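import Pool.Agent.X326.Spec.Match

/-!
# MP_434093_an: the spectral variation constants `C_K` are finite

For commuting Hermitian `K`-tuples the kernel `x ↦ x / |x|²` on `|x| ≥ δ` is a sum of dilates
`2^{-k} ψ(2^{-k} x / δ) / δ` of one Schwartz function; Fourier inversion for the pieces bounds the
product of the spectral projections of `A` and `B` for sets of joint eigenvalues at the distance at
least `δ` by a constant times `‖A - B‖ / δ`, uniformly in `n`, and Hall's marriage theorem gives the
matching.
-/

set_option autoImplicit false

namespace Pool.Agent.Results.MP_434093_an.FiniteConstants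

open Pool.Agent.X326.Spec

/-- For every `K` there is a constant `C` such that for all `n` and all commuting Hermitian
`K`-tuples `A`, `B` of `n × n` matrices the joint eigenvalues can be matched within the distance
`C ‖A - B‖`. -/
theorem result (K : ℕ) : ∃ C : ℝ, ∀ (n : ℕ) (A B : Fin K → Matrix (Fin n) (Fin n) ℂ),
    IsTuple A → IsTuple B → ∀ α β : Fin n → EuclideanSpace ℝ (Fin K),
      JointEigenvalues A α → JointEigenvalues B β →
        ∃ π : Equiv.Perm (Fin n), ∀ j,
          ‖α j - β (π j)‖ ≤ C * tupleNorm (fun J => A J - B J) :=
  ⟨2 * LL K, fun _ A B hA _ α β hα hβ => main A B hA α β hα hβ⟩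

end Pool.Agent.Results.MP_434093_an.FiniteConstants
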